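import Mathlib

/-!
# MP_071c0d : the First-Fit anti-Ramsey number is at most `(τ + 1) k / 2`

For every finite graph `H` with `k` edges and vertex cover number `τ`,
`2 * AR_FF(H) ≤ (τ + 1) * k`.
-/

namespace Pool.Agent.Results.MP_071c0d_co.HalfUpperBound

open Finset

variable {V : Type*}

/-- Two edges are adjacent: they are different and have a common endpoint. -/
def EAdj (e e' : Sym2 V) : Prop := e ≠ e' ∧ ∃ v, v ∈ e ∧ v ∈ e'

/-- The First-Fit colour of a new edge `e`, when the edges in `l` are present and coloured by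
`c`: the smallest positive integer not used on an edge of `l` adjacent to `e`. -/
noncomputable def firstFit (l : List (Sym2 V)) (c : Sym2 V → ℕ) (e : Sym2 V) : ℕ :=
  sInf {i | 0 < i ∧ ∀ e' ∈ l, EAdj e e' → c e' ≠ i}

open Classical in
/-- The colouring produced by First-Fit when Builder adds the edges of the list, the last member
of the list first (the head of the list is the most recent edge).
Edges outside the list have the dummy value `0`. -/
noncomputable def ffColouring : List (Sym2 V) → Sym2 V → ℕ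
  | [] => fun _ => 0
  | e :: l => Function.update (ffColouring l) e (firstFit l (ffColouring l) e)

/-- A play of Builder: pairwise different edges, none of them a loop. -/
def IsPlay (l : List (Sym2 V)) : Prop := l.Nodup ∧ ∀ e ∈ l, ¬ e.IsDiag

/-- The coloured graph built by the play `l` contains a rainbow copy of `H`. -/
def HasRainbow {W : Type*} (H : SimpleGraph W) (l : List (Sym2 ℕ)) : Prop :=
  ∃ f : W ↪ ℕ, (∀ e ∈ H.edgeSet, Sym2.map f e ∈ l) ∧
    Set.InjOn (fun e => ffColouring l (Sym2.map f e)) H.edgeSet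

/-- The First-Fit anti-Ramsey number: the least number of edges after which Builder can have
a rainbow copy of `H` (the board is the infinite vertex set `ℕ`). -/
noncomputable def ARFF {W : Type*} (H : SimpleGraph W) : ℕ∞ :=
  sInf {t : ℕ∞ | ∃ l : List (Sym2 ℕ), IsPlay l ∧ HasRainbow H l ∧ t = (l.length : ℕ∞)}

/-! ### Realising a colouring by First-Fit -/

lemma ff_eq_of_sorted (c : Sym2 V → ℕ) : ∀ l : List (Sym2 V), l.Nodup →
    l.Pairwise (fun a b => c b ≤ c a) → (∀ e ∈ l, 0 < c e) →
    (∀ e ∈ l, ∀ e' ∈ l, EAdj e e' → c e ≠ c e') →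
    (∀ e ∈ l, ∀ i, 0 < i → i < c e → ∃ e' ∈ l, EAdj e e' ∧ c e' = i) →
    ∀ e ∈ l, ffColouring l e = c e := by
  classical
  intro l
  induction l with
  | nil => intro _ _ _ _ _ e he; simp at he
  | cons e l ih =>
    intro hnd hsort hpos hprop hfull
    rw [List.nodup_cons] at hnd
    rw [List.pairwise_cons] at hsort
    have IH := ih hnd.2 hsort.2 (fun a ha => hpos a (List.mem_cons_of_mem _ ha))
      (fun a ha b hb => hprop a (List.mem_cons_of_mem _ ha) b (List.mem_cons_of_mem _ hb))
      (by
        intro a ha i hi hia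
        obtain ⟨b, hb, hab, hbi⟩ := hfull a (List.mem_cons_of_mem _ ha) i hi hia
        rcases List.mem_cons.mp hb with rfl | hb
        · exfalso
          have := hsort.1 a ha
          omega
        · exact ⟨b, hb, hab, hbi⟩)
    intro a ha
    rcases List.mem_cons.mp ha with rfl | ha
    · simp only [ffColouring, Function.update_self, firstFit]
      apply le_antisymm
      · apply Nat.sInf_le
        refine ⟨hpos _ (List.mem_cons_self), ?_⟩
        intro e' he' hadj
        rw [IH e' he']
        exact (hprop _ List.mem_cons_self e' (List.mem_cons_of_mem _ he') hadj).symm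
      · apply le_csInf
        · refine ⟨c a, hpos _ (List.mem_cons_self), ?_⟩
          intro e' he' hadj
          rw [IH e' he']
          exact (hprop _ List.mem_cons_self e' (List.mem_cons_of_mem _ he') hadj).symm
        · rintro i ⟨hi, hmem⟩
          by_contra hlt
          push Not at hlt
          obtain ⟨b, hb, hab, hbi⟩ := hfull a List.mem_cons_self i hi hlt
          rcases List.mem_cons.mp hb with rfl | hb
          · exact hab.1 rfl
          · apply hmem b hb hab
            rw [IH b hb, hbi]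
    · have hne : a ≠ e := fun h => hnd.1 (h ▸ ha)
      simp only [ffColouring, Function.update_of_ne hne]
      exact IH a ha

/-- A properly coloured finite graph in which every edge of colour `i` is adjacent to edges
of all smaller colours can be built against First-Fit. -/
lemma exists_play (G : Finset (Sym2 V)) (c : Sym2 V → ℕ) (hpos : ∀ e ∈ G, 0 < c e)
    (hprop : ∀ e ∈ G, ∀ e' ∈ G, EAdj e e' → c e ≠ c e')
    (hfull : ∀ e ∈ G, ∀ i, 0 < i → i < c e → ∃ e' ∈ G, EAdj e e' ∧ c e' = i) :
    ∃ l : List (Sym2 V), l.Nodup ∧ (∀ e, e ∈ l ↔ e ∈ G) ∧ l.length = G.card ∧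
      ∀ e ∈ G, ffColouring l e = c e := by
  classical
  let r : Sym2 V → Sym2 V → Prop := fun a b => c b ≤ c a
  have : Std.Total r := ⟨fun a b => le_total _ _⟩
  have : IsTrans _ r := ⟨fun a b d h1 h2 => le_trans h2 h1⟩
  set l := G.toList.insertionSort r with hl
  have hperm : l.Perm G.toList := List.perm_insertionSort r _
  have hmem : ∀ e, e ∈ l ↔ e ∈ G := by
    intro e
    rw [hperm.mem_iff, Finset.mem_toList]
  have hnd : l.Nodup := hperm.nodup_iff.mpr G.nodup_toList
  have hs : l.Pairwise (fun a b => c b ≤ c a) := by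
    simpa [r] using List.pairwise_insertionSort r G.toList
  refine ⟨l, hnd, hmem, by rw [hperm.length_eq, Finset.length_toList], ?_⟩
  intro e he
  refine ff_eq_of_sorted c l hnd hs (fun e he => hpos e ((hmem e).mp he))
    (fun a ha b hb => hprop a ((hmem a).mp ha) b ((hmem b).mp hb)) ?_ e ((hmem e).mpr he)
  intro a ha i hi hia
  obtain ⟨b, hb, h1, h2⟩ := hfull a ((hmem a).mp ha) i hi hia
  exact ⟨b, (hmem b).mpr hb, h1, h2⟩

lemma eAdj_map {V' : Type*} (φ : V ↪ V') (e e' : Sym2 V) :
    EAdj (Sym2.map φ e) (Sym2.map φ e') ↔ EAdj e e' := by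
  unfold EAdj
  constructor
  · rintro ⟨h1, v, hv, hv'⟩
    refine ⟨fun h => h1 (by rw [h]), ?_⟩
    rw [Sym2.mem_map] at hv hv'
    obtain ⟨a, ha, rfl⟩ := hv
    obtain ⟨b, hb, hab⟩ := hv'
    rw [φ.injective hab] at hb
    exact ⟨a, ha, hb⟩
  · rintro ⟨h1, v, hv, hv'⟩
    refine ⟨fun h => h1 (Sym2.map.injective φ.injective h), φ v, ?_, ?_⟩
    · exact Sym2.mem_map.mpr ⟨v, hv, rfl⟩
    · exact Sym2.mem_map.mpr ⟨v, hv', rfl⟩

/-- Upper bound for `ARFF` from a coloured graph on any countable vertex type. -/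
lemma ARFF_le {W V : Type*} (H : SimpleGraph W) (φ : V ↪ ℕ) (G : Finset (Sym2 V))
    (c : Sym2 V → ℕ) (hdiag : ∀ e ∈ G, ¬ e.IsDiag) (hpos : ∀ e ∈ G, 0 < c e)
    (hprop : ∀ e ∈ G, ∀ e' ∈ G, EAdj e e' → c e ≠ c e')
    (hfull : ∀ e ∈ G, ∀ i, 0 < i → i < c e → ∃ e' ∈ G, EAdj e e' ∧ c e' = i)
    (f : W ↪ V) (hf : ∀ e ∈ H.edgeSet, Sym2.map f e ∈ G)
    (hinj : Set.InjOn (fun e => c (Sym2.map f e)) H.edgeSet) :
    ARFF H ≤ (G.card : ℕ∞) := by
  classical
  have hφ : Function.Injective (Sym2.map φ) := Sym2.map.injective φ.injective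
  set c' : Sym2 ℕ → ℕ := Function.extend (Sym2.map φ) c 0 with hc'
  have hcc : ∀ e, c' (Sym2.map φ e) = c e := fun e => hφ.extend_apply _ _ _
  obtain ⟨l, hnd, hmem, hlen, hcol⟩ := exists_play (G.image (Sym2.map φ)) c'
    (by
      intro e he
      obtain ⟨a, ha, rfl⟩ := Finset.mem_image.mp he
      rw [hcc]; exact hpos a ha)
    (by
      intro e he e' he' hadj
      obtain ⟨a, ha, rfl⟩ := Finset.mem_image.mp he
      obtain ⟨b, hb, rfl⟩ := Finset.mem_image.mp he'
      rw [hcc, hcc]
      exact hprop a ha b hb ((eAdj_map φ a b).mp hadj))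
    (by
      intro e he i hi hie
      obtain ⟨a, ha, rfl⟩ := Finset.mem_image.mp he
      rw [hcc] at hie
      obtain ⟨b, hb, h1, h2⟩ := hfull a ha i hi hie
      exact ⟨_, Finset.mem_image_of_mem _ hb, (eAdj_map φ a b).mpr h1, by rw [hcc, h2]⟩)
  have hcard : (G.image (Sym2.map φ)).card = G.card := Finset.card_image_of_injective _ hφ
  rw [hcard] at hlen
  refine sInf_le ⟨l, ⟨hnd, ?_⟩, ⟨f.trans φ, ?_, ?_⟩, by rw [hlen]⟩
  · intro e he
    obtain ⟨a, ha, rfl⟩ := Finset.mem_image.mp ((hmem e).mp he)
    intro hd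
    apply hdiag a ha
    induction a with
    | _ x y =>
      rw [Sym2.map_mk, Sym2.mk_isDiag_iff] at hd
      rw [Sym2.mk_isDiag_iff]
      exact φ.injective hd
  · intro e he
    rw [hmem]
    have : Sym2.map (f.trans φ) e = Sym2.map φ (Sym2.map f e) := by
      rw [Sym2.map_map]; rfl
    rw [this]
    exact Finset.mem_image_of_mem _ (hf e he)
  · intro e he e' he' h
    have h1 : ∀ e : Sym2 W, Sym2.map (f.trans φ) e = Sym2.map φ (Sym2.map f e) := by
      intro e; rw [Sym2.map_map]; rfl
    simp only [h1] at h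
    rw [hcol _ (Finset.mem_image_of_mem _ (hf e he)),
      hcol _ (Finset.mem_image_of_mem _ (hf e' he')), hcc, hcc] at h
    exact hinj he he' h

/-! ### The construction -/

lemma exists_key {α : Type*} [Fintype α] (u : α → ℕ) :
    ∃ key : α → ℕ, Function.Injective key ∧ ∀ x y, key x < key y → u x ≤ u y := by
  classical
  let N := Fintype.card α
  let idx := Fintype.equivFin α
  refine ⟨fun x => u x * N + (idx x : ℕ), ?_, ?_⟩
  · intro x y h
    have hx := (idx x).isLt
    have hy := (idx y).isLt
    have hN : 0 < N := by omega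
    have h1 : (u x * N + (idx x : ℕ)) % N = (u y * N + (idx y : ℕ)) % N := by
      simp only at h
      rw [h]
    rw [Nat.mul_comm (u x), Nat.mul_comm (u y), Nat.mul_add_mod, Nat.mul_add_mod,
      Nat.mod_eq_of_lt hx, Nat.mod_eq_of_lt hy] at h1
    exact idx.injective (Fin.ext h1)
  · intro x y h
    simp only at h
    have hy := (idx y).isLt
    by_contra hlt
    push Not at hlt
    have : (u y + 1) * N ≤ u x * N := Nat.mul_le_mul_right _ hlt
    have h2 : (u y + 1) * N = u y * N + N := by ring
    omega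

lemma exists_rank {α : Type*} (E : Finset α) (key : α → ℕ) (hkey : Function.Injective key) :
    ∃ col : α → ℕ, (∀ e ∈ E, 0 < col e) ∧
      (∀ e ∈ E, ∀ e' ∈ E, col e' < col e ↔ key e' < key e) ∧
      (Set.InjOn col E) ∧
      (∀ e ∈ E, ∀ i, 0 < i → i < col e → ∃ e' ∈ E, col e' = i) := by
  classical
  let col : α → ℕ := fun e => (E.filter (fun e' => key e' < key e)).card + 1
  have hmono : ∀ e ∈ E, ∀ e' ∈ E, key e' < key e → col e' < col e := by
    intro e he e' he' h
    have : (E.filter (fun x => key x < key e')) ⊂ (E.filter (fun x => key x < key e)) := by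
      rw [Finset.ssubset_iff_of_subset]
      · exact ⟨e', by simp [he', h], by simp⟩
      · intro x hx
        simp only [Finset.mem_filter] at hx ⊢
        exact ⟨hx.1, by omega⟩
    have := Finset.card_lt_card this
    simp only [col]
    omega
  have hiff : ∀ e ∈ E, ∀ e' ∈ E, col e' < col e ↔ key e' < key e := by
    intro e he e' he'
    constructor
    · intro h
      by_contra hn
      push Not at hn
      rcases hn.lt_or_eq with h1 | h1
      · have := hmono e' he' e he h1
        omega
      · have := hkey h1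
        subst this
        omega
    · exact hmono e he e' he'
  have hinj : Set.InjOn col E := by
    intro e he e' he' h
    have he := Finset.mem_coe.mp he
    have he' := Finset.mem_coe.mp he'
    have h1 := hiff e he e' he'
    have h2 := hiff e' he' e he
    apply hkey
    omega
  refine ⟨col, fun e _ => Nat.succ_pos _, hiff, hinj, ?_⟩
  have himg : E.image col = Finset.Icc 1 E.card := by
    apply Finset.eq_of_subset_of_card_le
    · intro i hi
      obtain ⟨e, he, rfl⟩ := Finset.mem_image.mp hi
      rw [Finset.mem_Icc]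
      refine ⟨Nat.succ_pos _, ?_⟩
      have : (E.filter (fun e' => key e' < key e)) ⊂ E := by
        rw [Finset.ssubset_iff_of_subset (Finset.filter_subset _ _)]
        exact ⟨e, he, by simp⟩
      exact Finset.card_lt_card this
    · rw [Finset.card_image_of_injOn hinj]
      simp
  intro e he i hi hie
  have hmem : col e ∈ E.image col := Finset.mem_image_of_mem _ he
  rw [himg, Finset.mem_Icc] at hmem
  have : i ∈ E.image col := by
    rw [himg, Finset.mem_Icc]
    omega
  obtain ⟨e', he', h⟩ := Finset.mem_image.mp this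
  exact ⟨e', he', h⟩

/-- The colouring of the extended graph on `W ⊕ (W × ℕ)`. -/
def extCol {W : Type*} (col : Sym2 W → ℕ) : Sym2 (W ⊕ (W × ℕ)) → ℕ :=
  Sym2.lift ⟨fun x y => match x, y with
    | Sum.inl a, Sum.inl b => col s(a, b)
    | Sum.inl _, Sum.inr p => p.2
    | Sum.inr p, Sum.inl _ => p.2
    | Sum.inr _, Sum.inr _ => 0, by
      intro x y
      rcases x with a | p <;> rcases y with b | q <;> simp [Sym2.eq_swap]⟩

lemma extCol_map {W : Type*} (col : Sym2 W → ℕ) (e : Sym2 W) :
    extCol col (Sym2.map Sum.inl e) = col e := by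
  induction e with
  | _ x y => simp [extCol]

lemma extCol_pend {W : Type*} (col : Sym2 W → ℕ) (t : W) (p : W × ℕ) :
    extCol col s(Sum.inl t, Sum.inr p) = p.2 := by
  simp [extCol]

lemma count_bound {W : Type*} [DecidableEq W] (E : Finset (Sym2 W)) (T : Finset W) (σ : Sym2 W → W)
    (hσ : ∀ e ∈ E, σ e ∈ T) (κ : W → ℕ) (hκ : Function.Injective κ)
    (hmono : ∀ x y, κ x < κ y → (E.filter (fun e => σ e = x)).card ≤
      (E.filter (fun e => σ e = y)).card) :
    2 * (E.card + ∑ t ∈ T, (E.filter (fun e => κ (σ e) < κ t)).card) ≤ (T.card + 1) * E.card := by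
  let a : W → ℕ := fun t => (E.filter (fun e => σ e = t)).card
  have hE : ∑ t ∈ T, a t = E.card := (Finset.card_eq_sum_card_fiberwise hσ).symm
  have hN : ∀ t, (E.filter (fun e => κ (σ e) < κ t)).card =
      ∑ t' ∈ T, if κ t' < κ t then a t' else 0 := by
    intro t
    rw [Finset.card_eq_sum_card_fiberwise (f := σ) (t := T)
      (fun e he => hσ e (Finset.mem_of_mem_filter e he))]
    apply Finset.sum_congr rfl
    intro t' _
    by_cases h : κ t' < κ t
    · rw [if_pos h]
      simp only [a]
      congr 1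
      ext e
      simp only [Finset.mem_filter]
      constructor
      · rintro ⟨⟨h1, _⟩, h3⟩; exact ⟨h1, h3⟩
      · rintro ⟨h1, h3⟩; exact ⟨⟨h1, by rw [h3]; exact h⟩, h3⟩
    · rw [if_neg h, Finset.card_eq_zero]
      ext e
      simp only [Finset.mem_filter, Finset.notMem_empty, iff_false]
      rintro ⟨⟨_, h2⟩, h3⟩
      rw [h3] at h2
      exact h h2
  simp only [hN]
  have h1 : ∑ t ∈ T, ∑ t' ∈ T, (if κ t' < κ t then a t' else 0) ≤
      ∑ t ∈ T, ∑ t' ∈ T, (if κ t' < κ t then a t else 0) := by
    apply Finset.sum_le_sum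
    intro t _
    apply Finset.sum_le_sum
    intro t' _
    split_ifs with h
    · exact hmono _ _ h
    · exact le_rfl
  have h2 : ∑ t ∈ T, ∑ t' ∈ T, (if κ t' < κ t then a t' else 0) =
      ∑ t' ∈ T, ∑ t ∈ T, (if κ t' < κ t then a t' else 0) := Finset.sum_comm
  have h3 : ∑ t' ∈ T, ∑ t ∈ T, (if κ t' < κ t then a t' else 0) +
      ∑ t' ∈ T, ∑ t ∈ T, (if κ t < κ t' then a t' else 0) + E.card = T.card * E.card := by
    rw [← hE, ← Finset.sum_add_distrib, ← Finset.sum_add_distrib, Finset.mul_sum]
    apply Finset.sum_congr rfl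
    intro t' ht'
    rw [← Finset.sum_add_distrib]
    have : ∀ t ∈ T, ((if κ t' < κ t then a t' else 0) + if κ t < κ t' then a t' else 0) =
        if t = t' then 0 else a t' := by
      intro t _
      by_cases h : t = t'
      · subst h; simp
      · have hne : κ t ≠ κ t' := fun h' => h (hκ h')
        rw [if_neg h]
        rcases lt_or_gt_of_ne hne with h' | h'
        · rw [if_neg (by omega), if_pos h', zero_add]
        · rw [if_pos h', if_neg (by omega), add_zero]
    rw [Finset.sum_congr rfl this]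
    have h4 : ∑ t ∈ T, (if t = t' then 0 else a t') + a t' = ∑ t ∈ T, a t' := by
      rw [← Finset.add_sum_erase T _ ht']
      simp only [if_true, zero_add]
      rw [← Finset.add_sum_erase T (fun _ => a t') ht', add_comm]
      congr 1
      apply Finset.sum_congr rfl
      intro x hx
      rw [if_neg (Finset.ne_of_mem_erase hx)]
    rw [h4]
    simp
  rw [← h2] at h3
  have h5 : (T.card + 1) * E.card = T.card * E.card + E.card := by ring
  rw [h5, ← h3]
  omega

theorem main {W : Type*} [Fintype W] (H : SimpleGraph W) (T : Finset W)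
    (hT : H.IsVertexCover (T : Set W)) :
    ∃ n : ℕ, ARFF H ≤ (n : ℕ∞) ∧ 2 * n ≤ (T.card + 1) * H.edgeSet.ncard := by
  classical
  set E : Finset (Sym2 W) := H.edgeSet.toFinset with hE
  have hEmem : ∀ e, e ∈ E ↔ e ∈ H.edgeSet := fun e => Set.mem_toFinset
  have hEcard : E.card = H.edgeSet.ncard := by
    rw [Set.ncard_eq_toFinset_card']
  -- assignment
  have hσex : ∀ e : Sym2 W, ∃ t : W, e ∈ E → (t ∈ T ∧ t ∈ e) := by
    intro e
    by_cases he : e ∈ E
    · induction e with
      | _ x y =>
        rw [hEmem, SimpleGraph.mem_edgeSet] at he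
        rcases hT he with h | h
        · exact ⟨x, fun _ => ⟨h, Sym2.mem_mk_left _ _⟩⟩
        · exact ⟨y, fun _ => ⟨h, Sym2.mem_mk_right _ _⟩⟩
    · exact ⟨e.out.1, fun h => absurd h he⟩
  choose σ hσ using hσex
  obtain ⟨κ, hκinj, hκmono⟩ := exists_key (fun t : W => (E.filter (fun e => σ e = t)).card)
  obtain ⟨key, hkeyinj, hkeymono⟩ := exists_key (fun e : Sym2 W => κ (σ e))
  obtain ⟨col, hcpos, hciff, hcinj, hcsurj⟩ := exists_rank E key hkeyinj
  -- pendant edges
  let need : W → Finset (Sym2 W) := fun t => E.filter (fun e => κ (σ e) < κ t)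
  let miss : W → Finset ℕ := fun t => ((need t).image col).filter
    (fun i => ∀ e ∈ E, t ∈ e → col e ≠ i)
  let G1 : Finset (Sym2 (W ⊕ (W × ℕ))) := E.image (Sym2.map Sum.inl)
  let G2 : Finset (Sym2 (W ⊕ (W × ℕ))) := T.biUnion
    (fun t => (miss t).image (fun i => s(Sum.inl t, Sum.inr (t, i))))
  have hG1 : ∀ e, e ∈ G1 ↔ ∃ a ∈ E, Sym2.map Sum.inl a = e := by
    intro e; simp only [G1, Finset.mem_image]
  have hG2 : ∀ e, e ∈ G2 ↔ ∃ t ∈ T, ∃ i ∈ miss t, s(Sum.inl t, Sum.inr (t, i)) = e := by
    intro e; simp only [G2, Finset.mem_biUnion, Finset.mem_image]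
  have hmiss : ∀ t i, i ∈ miss t ↔ (∃ e ∈ E, κ (σ e) < κ t ∧ col e = i) ∧
      ∀ e ∈ E, t ∈ e → col e ≠ i := by
    intro t i
    simp only [miss, need, Finset.mem_filter, Finset.mem_image, and_assoc]
  have hmemσ : ∀ e ∈ E, σ e ∈ e := fun e he => (hσ e he).2
  have hTσ : ∀ e ∈ E, σ e ∈ T := fun e he => (hσ e he).1
  -- every needed colour is present at `t`
  have hpres : ∀ t ∈ T, ∀ e ∈ E, κ (σ e) < κ t →
      ∃ g ∈ G1 ∪ G2, (Sum.inl t : W ⊕ (W × ℕ)) ∈ g ∧ extCol col g = col e := by
    intro t ht e he hlt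
    by_cases h : ∃ e' ∈ E, t ∈ e' ∧ col e' = col e
    · obtain ⟨e', he', hte', hce'⟩ := h
      refine ⟨Sym2.map Sum.inl e', Finset.mem_union_left _ ((hG1 _).mpr ⟨e', he', rfl⟩), ?_, ?_⟩
      · exact Sym2.mem_map.mpr ⟨t, hte', rfl⟩
      · rw [extCol_map, hce']
    · push Not at h
      refine ⟨s(Sum.inl t, Sum.inr (t, col e)), Finset.mem_union_right _ ((hG2 _).mpr
        ⟨t, ht, col e, (hmiss _ _).mpr ⟨⟨e, he, hlt, rfl⟩, h⟩, rfl⟩), ?_, ?_⟩
      · exact Sym2.mem_mk_left _ _
      · rw [extCol_pend]
  refine ⟨(G1 ∪ G2).card, ?_, ?_⟩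
  · obtain ⟨φ, hφ⟩ := exists_injective_nat (W ⊕ (W × ℕ))
    refine ARFF_le H ⟨φ, hφ⟩ (G1 ∪ G2) (extCol col) ?_ ?_ ?_ ?_ ⟨Sum.inl, Sum.inl_injective⟩ ?_ ?_
    · -- no loops
      intro e he
      rcases Finset.mem_union.mp he with he | he
      · obtain ⟨a, ha, rfl⟩ := (hG1 _).mp he
        induction a with
        | _ x y =>
          rw [hEmem, SimpleGraph.mem_edgeSet] at ha
          rw [Sym2.map_mk, Sym2.mk_isDiag_iff]
          intro h
          exact ha.ne (Sum.inl_injective h)
      · obtain ⟨t, _, i, _, rfl⟩ := (hG2 _).mp he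
        rw [Sym2.mk_isDiag_iff]
        simp
    · -- positivity
      intro e he
      rcases Finset.mem_union.mp he with he | he
      · obtain ⟨a, ha, rfl⟩ := (hG1 _).mp he
        rw [extCol_map]
        exact hcpos a ha
      · obtain ⟨t, _, i, hi, rfl⟩ := (hG2 _).mp he
        rw [extCol_pend]
        obtain ⟨⟨e0, he0, _, h0⟩, _⟩ := (hmiss _ _).mp hi
        rw [← h0]
        exact hcpos e0 he0
    · -- proper
      intro e he e' he' hadj
      obtain ⟨hne, v, hv, hv'⟩ := hadj
      rcases Finset.mem_union.mp he with he | he <;> rcases Finset.mem_union.mp he' with he' | he'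
      · obtain ⟨a, ha, rfl⟩ := (hG1 _).mp he
        obtain ⟨b, hb, rfl⟩ := (hG1 _).mp he'
        rw [extCol_map, extCol_map]
        intro h
        apply hne
        rw [hcinj (Finset.mem_coe.mpr ha) (Finset.mem_coe.mpr hb) h]
      · obtain ⟨a, ha, rfl⟩ := (hG1 _).mp he
        obtain ⟨t, _, i, hi, rfl⟩ := (hG2 _).mp he'
        rw [extCol_map, extCol_pend]
        obtain ⟨x, hx, rfl⟩ := Sym2.mem_map.mp hv
        rw [Sym2.mem_iff] at hv'
        rcases hv' with h | h
        · have hxt : x = t := Sum.inl_injective h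
          subst hxt
          exact ((hmiss _ _).mp hi).2 a ha hx
        · simp at h
      · obtain ⟨a, ha, rfl⟩ := (hG1 _).mp he'
        obtain ⟨t, _, i, hi, rfl⟩ := (hG2 _).mp he
        rw [extCol_map, extCol_pend]
        obtain ⟨x, hx, rfl⟩ := Sym2.mem_map.mp hv'
        rw [Sym2.mem_iff] at hv
        rcases hv with h | h
        · have hxt : x = t := Sum.inl_injective h
          subst hxt
          exact (((hmiss _ _).mp hi).2 a ha hx).symm
        · simp at h
      · obtain ⟨t, _, i, hi, rfl⟩ := (hG2 _).mp he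
        obtain ⟨t', _, i', hi', rfl⟩ := (hG2 _).mp he'
        rw [extCol_pend, extCol_pend]
        intro h
        simp only at h
        subst h
        apply hne
        rw [Sym2.mem_iff] at hv hv'
        rcases hv with rfl | rfl <;> rcases hv' with h | h
        · have := Sum.inl_injective h
          subst this; rfl
        · simp at h
        · simp at h
        · have := Sum.inr_injective h
          simp only [Prod.mk.injEq, and_true] at this
          subst this; rfl
    · -- fullness
      intro e he i hi hie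
      rcases Finset.mem_union.mp he with he | he
      · obtain ⟨a, ha, rfl⟩ := (hG1 _).mp he
        rw [extCol_map] at hie
        obtain ⟨b, hb, hbi⟩ := hcsurj a ha i hi hie
        have hkey : key b < key a := by
          rw [← hciff a ha b hb, hbi]; exact hie
        have hle := hkeymono b a hkey
        rcases hle.lt_or_eq with h | h
        · obtain ⟨g, hg, hgt, hgc⟩ := hpres (σ a) (hTσ a ha) b hb h
          refine ⟨g, hg, ⟨?_, Sum.inl (σ a), ?_, hgt⟩, by rw [hgc, hbi]⟩
          · intro h'
            rw [← h', extCol_map] at hgc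
            omega
          · exact Sym2.mem_map.mpr ⟨σ a, hmemσ a ha, rfl⟩
        · have hσab : σ b = σ a := hκinj h
          refine ⟨Sym2.map Sum.inl b, Finset.mem_union_left _ ((hG1 _).mpr ⟨b, hb, rfl⟩),
            ⟨?_, Sum.inl (σ a), ?_, ?_⟩, by rw [extCol_map, hbi]⟩
          · intro h'
            have : a = b := Sym2.map.injective Sum.inl_injective h'
            subst this
            omega
          · exact Sym2.mem_map.mpr ⟨σ a, hmemσ a ha, rfl⟩
          · exact Sym2.mem_map.mpr ⟨σ a, hσab ▸ hmemσ b hb, rfl⟩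
      · obtain ⟨t, ht, j, hj, rfl⟩ := (hG2 _).mp he
        rw [extCol_pend] at hie
        simp only at hie
        obtain ⟨⟨e0, he0, hlt0, h0⟩, _⟩ := (hmiss _ _).mp hj
        obtain ⟨b, hb, hbi⟩ := hcsurj e0 he0 i hi (by rw [h0]; exact hie)
        have hkey : key b < key e0 := by
          rw [← hciff e0 he0 b hb, hbi, h0]; exact hie
        have hle := hkeymono b e0 hkey
        obtain ⟨g, hg, hgt, hgc⟩ := hpres t ht b hb (by omega)
        refine ⟨g, hg, ⟨?_, Sum.inl t, Sym2.mem_mk_left _ _, hgt⟩, by rw [hgc, hbi]⟩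
        intro h'
        rw [← h', extCol_pend] at hgc
        simp only at hgc
        omega
    · intro e he
      exact Finset.mem_union_left _ ((hG1 _).mpr ⟨e, (hEmem e).mpr he, rfl⟩)
    · intro e he e' he' h
      have h' : extCol col (Sym2.map Sum.inl e) = extCol col (Sym2.map Sum.inl e') := h
      rw [extCol_map, extCol_map] at h'
      exact hcinj (Finset.mem_coe.mpr ((hEmem e).mpr he)) (Finset.mem_coe.mpr ((hEmem e').mpr he'))
        h'
  · rw [← hEcard]
    refine le_trans ?_ (count_bound E T σ hTσ κ hκinj hκmono)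
    apply Nat.mul_le_mul_left
    refine le_trans (Finset.card_union_le _ _) ?_
    apply Nat.add_le_add
    · exact Finset.card_image_le
    · refine le_trans Finset.card_biUnion_le ?_
      apply Finset.sum_le_sum
      intro t _
      refine le_trans Finset.card_image_le ?_
      refine le_trans (Finset.card_filter_le _ _) ?_
      exact Finset.card_image_le

/-- **MP_071c0d.** For every finite graph `H` with `k` edges and vertex cover number `τ`,
`2 * AR_FF(H) ≤ (τ + 1) * k`. -/
theorem result {W : Type*} [Finite W] (H : SimpleGraph W) :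
    2 * ARFF H ≤ (H.vertexCoverNum + 1) * H.edgeSet.encard := by
  classical
  have _i : Fintype W := Fintype.ofFinite W
  obtain ⟨s, hs, hcov⟩ := SimpleGraph.vertexCoverNum_exists H
  set T : Finset W := s.toFinset with hT
  have hTs : (T : Set W) = s := Set.coe_toFinset s
  obtain ⟨n, hn, hbound⟩ := main H T (by rw [hTs]; exact hcov)
  rw [← hs, ← hTs, Set.encard_coe_eq_coe_finsetCard,
    ← Set.Finite.cast_ncard_eq (Set.toFinite H.edgeSet)]
  calc 2 * ARFF H ≤ 2 * (n : ℕ∞) := by gcongr
    _ ≤ _ := by exact_mod_cast hbound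

end Pool.Agent.Results.MP_071c0d_co.HalfUpperBound
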